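import Pool.Agent.R247.TW.Ord

/-!
# The exponents `c_t`
-/

namespace Pool.Agent.R247.TW

open Finset Real Pool.Agent.Y422.TW Filter Topology

open Classical

/-- off-diagonal upper bound for large `t`. -/
theorem off (δ : ℝ) (hδ : 0 < δ) (hδ1 : δ ≤ 1) : ∀ᶠ t : ℕ in atTop, ∀ (V : Type) [Fintype V]
    (G : SimpleGraph V), TwinWidthLE G t → ∀ a b : ℕ, G.CliqueFree (a + 1) →
      Gᶜ.CliqueFree (b + 1) → (Fintype.card V : ℝ) ≤
        2 * ((t : ℝ) + 1) * (log t) ^ 2 * ((a : ℝ) * b) ^ ((1 + δ) * log t / (2 * log (log t))) := by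
  have hlog : Tendsto (fun t : ℕ => log (t : ℝ)) atTop atTop :=
    tendsto_log_atTop.comp tendsto_natCast_atTop_atTop
  have h1 := hlog.eventually (cond_large δ hδ hδ1)
  have h2 := hlog.eventually (eventually_gt_atTop (exp 1))
  filter_upwards [h1, h2] with t ht hx V _ G hG a b ha hb
  have he : (1 : ℝ) < exp 1 := by
    have := exp_one_gt_d9
    linarith
  have hx1 : 1 < log (t : ℝ) := by linarith
  have hlx : 0 < log (log (t : ℝ)) := log_pos hx1
  have hx0 : 0 < log (t : ℝ) := by linarith
  have hsq : 1 < (log (t : ℝ)) ^ 2 := by nlinarith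
  have hc : 0 < (1 + δ) * log t / (2 * log (log t)) := by positivity
  have h := up' hc (ε := 1 / (log (t : ℝ)) ^ 2) (by positivity)
    (by rw [div_lt_one (by positivity)]; exact hsq) (ht t rfl) G hG ha hb
  refine h.trans (le_of_eq ?_)
  congr 1
  field_simp

theorem upper_exp (δ : ℝ) (hδ : 0 < δ) (hδ1 : δ ≤ 1) : ∀ᶠ t : ℕ in atTop, ∀ S : ℝ,
    (∀ B K : ℝ, 0 < B → (∀ a n : ℕ, 1 ≤ a → Ok t a n → (n : ℝ) ≤ B * (a : ℝ) ^ K) → S ≤ K) →
      S * log (log t) / log t ≤ 1 + δ := by
  have hlog : Tendsto (fun t : ℕ => log (t : ℝ)) atTop atTop :=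
    tendsto_log_atTop.comp tendsto_natCast_atTop_atTop
  have h2 := hlog.eventually (eventually_gt_atTop (exp 1))
  filter_upwards [off δ hδ hδ1, h2] with t ht hx S hS
  have he : (1 : ℝ) < exp 1 := by
    have := exp_one_gt_d9
    linarith
  have hx1 : 1 < log (t : ℝ) := by linarith
  have hlx : 0 < log (log (t : ℝ)) := log_pos hx1
  have hx0 : 0 < log (t : ℝ) := by linarith
  have h := hS (2 * ((t : ℝ) + 1) * (log t) ^ 2) (2 * ((1 + δ) * log t / (2 * log (log t))))
    (by positivity) (by
      rintro a n ha ⟨V, _, G, rfl, hG, h3, h4⟩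
      refine (ht V G hG a a h3 h4).trans (le_of_eq ?_)
      congr 1
      rw [← sq, ← rpow_natCast (a : ℝ) 2, ← rpow_mul (by positivity)]
      norm_num)
  rw [div_le_iff₀ hx0]
  have h5 := mul_le_mul_of_nonneg_right h hlx.le
  refine h5.trans (le_of_eq ?_)
  field_simp

theorem lower_exp (t : ℕ) (hx : 5 ≤ log (t : ℝ)) (S : ℝ)
    (hS : ∀ b : ℕ, 2 ≤ b → log (maxOrd t b) / log b ≤ S) :
    (log t - log 2) / log t * (log (log t) / (log 4 + log (log t))) ≤
      S * log (log t) / log t := by
  set x : ℝ := log (t : ℝ) with hxdef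
  have hx0 : 0 < x := by linarith
  have hlx : 0 < log x := log_pos (by linarith)
  have hl2 : 0 < log 2 := log_pos (by norm_num)
  have hl4 : 0 < log 4 := log_pos (by norm_num)
  have htpos : (0 : ℝ) < t := by
    rcases Nat.eq_zero_or_pos t with h | h
    · rw [hxdef, h, Nat.cast_zero, log_zero] at hx
      linarith
    · exact_mod_cast h
  have ht1 : (1 : ℝ) ≤ t := by exact_mod_cast (by exact_mod_cast htpos : 0 < t)
  set m : ℕ := Nat.log 2 (t + 2) with hm
  have h1 : 2 ^ m ≤ t + 2 := Nat.pow_log_le_self 2 (by omega)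
  have h2 : t + 2 < 2 ^ (m + 1) := Nat.lt_pow_succ_log_self (by norm_num) _
  have hm1 : 1 ≤ m := by
    rw [hm]
    exact (Nat.le_log_iff_pow_le (by norm_num) (by omega)).2 (by omega)
  have hOk : Ok t (2 * m + 1) (2 ^ m) := by
    obtain ⟨G0, g1, g2⟩ := erdos m hm1
    have : Nonempty (Fin (2 ^ m)) := ⟨⟨0, by positivity⟩⟩
    exact ⟨Fin (2 ^ m), inferInstance, G0, by simp,
      small_twinWidth G0 t (by rw [Fintype.card_fin]; exact h1), g1, g2⟩
  have h3 : ((2 ^ m : ℕ) : ℝ) ≤ maxOrd t (2 * m + 1) := by exact_mod_cast le_maxOrd hOk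
  have h4 := hS (2 * m + 1) (by omega)
  have hm1r : (1 : ℝ) ≤ m := by exact_mod_cast hm1
  have hcast : ((2 * m + 1 : ℕ) : ℝ) = 2 * m + 1 := by push_cast; ring
  rw [hcast] at h4
  have hlm : 0 < log (2 * (m : ℝ) + 1) := log_pos (by linarith)
  have h5 : x - log 2 ≤ log (maxOrd t (2 * m + 1)) := by
    have e1 : log ((2 ^ m : ℕ) : ℝ) ≤ log (maxOrd t (2 * m + 1)) :=
      log_le_log (by positivity) h3
    have e2 : log ((2 ^ m : ℕ) : ℝ) = m * log 2 := by
      rw [Nat.cast_pow, log_pow]
      norm_num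
    have e3 : x ≤ (m + 1) * log 2 := by
      have e4 : (t : ℝ) ≤ (2 : ℝ) ^ (m + 1) := by
        exact_mod_cast (by omega : t ≤ 2 ^ (m + 1))
      have := log_le_log htpos e4
      rw [log_pow] at this
      push_cast at this
      exact this
    rw [e2] at e1
    linarith
  have h6 : 2 * (m : ℝ) + 1 ≤ 4 * x := by
    have e1 : (m : ℝ) * log 2 ≤ x + log 3 := by
      have e4 : (2 : ℝ) ^ m ≤ 3 * t := by
        have : ((2 ^ m : ℕ) : ℝ) ≤ ((t + 2 : ℕ) : ℝ) := by exact_mod_cast h1
        push_cast at this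
        linarith
      have := log_le_log (by positivity) e4
      rw [log_pow, log_mul (by norm_num) htpos.ne'] at this
      linarith
    have e2 : 0.6931471803 < log 2 := log_two_gt_d9
    have e3 : log (3 : ℝ) ≤ 1.39 := by
      have h7 : log (3 : ℝ) ≤ log 4 := log_le_log (by norm_num) (by norm_num)
      rw [show (4 : ℝ) = 2 ^ 2 by norm_num, log_pow] at h7
      push_cast at h7
      have := log_two_lt_d9
      linarith
    have e5 : (m : ℝ) * 0.6931 ≤ m * log 2 :=
      mul_le_mul_of_nonneg_left (by linarith) (by linarith)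
    linarith
  have h7 : log (2 * (m : ℝ) + 1) ≤ log 4 + log x := by
    rw [← log_mul (by norm_num) hx0.ne']
    exact log_le_log (by positivity) h6
  have h8 : (x - log 2) / (log 4 + log x) ≤ S := by
    refine le_trans ?_ h4
    have hl2x : log 2 < 1 := by
      have := log_two_lt_d9
      linarith
    calc (x - log 2) / (log 4 + log x) ≤ (x - log 2) / log (2 * (m : ℝ) + 1) :=
          div_le_div_of_nonneg_left (by linarith) hlm h7
      _ ≤ log (maxOrd t (2 * m + 1)) / log (2 * (m : ℝ) + 1) :=
          div_le_div_of_nonneg_right h5 hlm.le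
  have h9 : (x - log 2) / x * (log x / (log 4 + log x)) =
      (x - log 2) / (log 4 + log x) * (log x / x) := by
    field_simp
  rw [h9, mul_div_assoc]
  exact mul_le_mul_of_nonneg_right h8 (by positivity)

/-- Largest number of vertices of a colouring (a graph `G` and its complement) of twin-width at most
`t` without monochromatic `K_k`. -/
noncomputable def ramseyOrder (t k : ℕ) : ℕ :=
  sSup {n | ∃ (V : Type) (_ : Fintype V) (G : SimpleGraph V), Fintype.card V = n ∧
    TwinWidthLE G t ∧ G.CliqueFree k ∧ Gᶜ.CliqueFree k}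

theorem ramseyOrder_succ (t a : ℕ) : ramseyOrder t (a + 1) = maxOrd t a := rfl

theorem exponents : ∃ c : ℕ → ℝ,
    (∀ t, Tendsto (fun k : ℕ => log (ramseyOrder t k) / log k) atTop (𝓝 (c t))) ∧
      Tendsto (fun t : ℕ => c t * log (log t) / log t) atTop (𝓝 1) := by
  choose c h1 h2 h3 using limit_exists
  refine ⟨c, fun t => ?_, ?_⟩
  · rw [← tendsto_add_atTop_iff_nat 1]
    have e : (fun a : ℕ => log (ramseyOrder t (a + 1)) / log ((a + 1 : ℕ) : ℝ)) =ᶠ[atTop]
        fun a : ℕ => log (maxOrd t a) / log a * (log (a : ℝ) / log ((a + 1 : ℕ) : ℝ)) := by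
      filter_upwards [eventually_ge_atTop 2] with a ha
      have ha1 : (1 : ℝ) < a := by exact_mod_cast (by omega : 1 < a)
      have hla : 0 < log (a : ℝ) := log_pos ha1
      have hla' : 0 < log ((a + 1 : ℕ) : ℝ) := log_pos (by push_cast; linarith)
      rw [ramseyOrder_succ]
      field_simp
    refine Tendsto.congr' e.symm ?_
    have h4 : Tendsto (fun a : ℕ => log (a : ℝ) / log ((a + 1 : ℕ) : ℝ)) atTop (𝓝 1) := by
      have hlog : Tendsto (fun a : ℕ => log ((a + 1 : ℕ) : ℝ)) atTop atTop :=
        tendsto_log_atTop.comp (tendsto_natCast_atTop_atTop.comp (tendsto_add_atTop_nat 1))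
      have h5 : Tendsto (fun a : ℕ => log 2 / log ((a + 1 : ℕ) : ℝ)) atTop (𝓝 0) :=
        tendsto_const_nhds.div_atTop hlog
      have h6 : Tendsto (fun a : ℕ => 1 - log 2 / log ((a + 1 : ℕ) : ℝ)) atTop (𝓝 (1 - 0)) :=
        tendsto_const_nhds.sub h5
      rw [sub_zero] at h6
      refine tendsto_of_tendsto_of_tendsto_of_le_of_le' h6 tendsto_const_nhds ?_ ?_
      · filter_upwards [eventually_ge_atTop 2] with a ha
        have ha1 : (1 : ℝ) < a := by exact_mod_cast (by omega : 1 < a)
        have hla' : 0 < log ((a + 1 : ℕ) : ℝ) := log_pos (by push_cast; linarith)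
        rw [le_div_iff₀ hla', sub_mul, div_mul_cancel₀ _ hla'.ne']
        have h7 : log ((a + 1 : ℕ) : ℝ) ≤ log 2 + log a := by
          rw [← log_mul (by norm_num) (by linarith)]
          exact log_le_log (by push_cast; linarith) (by push_cast; linarith)
        linarith
      · filter_upwards [eventually_ge_atTop 2] with a ha
        have ha1 : (1 : ℝ) < a := by exact_mod_cast (by omega : 1 < a)
        have hla' : 0 < log ((a + 1 : ℕ) : ℝ) := log_pos (by push_cast; linarith)
        rw [div_le_one hla']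
        exact log_le_log (by linarith) (by push_cast; linarith)
    have h5 := (h1 t).mul h4
    rw [mul_one] at h5
    exact h5
  · have hlog : Tendsto (fun t : ℕ => log (t : ℝ)) atTop atTop :=
      tendsto_log_atTop.comp tendsto_natCast_atTop_atTop
    have hloglog : Tendsto (fun t : ℕ => log (log (t : ℝ))) atTop atTop :=
      tendsto_log_atTop.comp hlog
    have hg : Tendsto (fun t : ℕ => (log (t : ℝ) - log 2) / log t *
        (log (log t) / (log 4 + log (log t)))) atTop (𝓝 1) := by
      have g1 : Tendsto (fun x : ℝ => (x - log 2) / x) atTop (𝓝 1) := by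
        have h4 : Tendsto (fun x : ℝ => 1 - log 2 / x) atTop (𝓝 (1 - 0)) :=
          tendsto_const_nhds.sub (tendsto_const_nhds.div_atTop tendsto_id)
        rw [sub_zero] at h4
        refine h4.congr' ?_
        filter_upwards [eventually_gt_atTop 0] with x hx
        field_simp
      have g2 : Tendsto (fun x : ℝ => x / (log 4 + x)) atTop (𝓝 1) := by
        have h4 : Tendsto (fun x : ℝ => 1 - log 4 / (log 4 + x)) atTop (𝓝 (1 - 0)) :=
          tendsto_const_nhds.sub (tendsto_const_nhds.div_atTop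
            (tendsto_atTop_add_const_left _ _ tendsto_id))
        rw [sub_zero] at h4
        refine h4.congr' ?_
        filter_upwards [eventually_gt_atTop 0] with x hx
        have : 0 < log (4 : ℝ) := log_pos (by norm_num)
        field_simp
        ring
      have h4 := (g1.comp hlog).mul (g2.comp hloglog)
      rw [one_mul] at h4
      exact h4
    rw [tendsto_order]
    refine ⟨fun r hr => ?_, fun r hr => ?_⟩
    · filter_upwards [(tendsto_order.1 hg).1 r hr, hlog.eventually (eventually_ge_atTop 5)]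
        with t ht hx
      exact ht.trans_le (lower_exp t hx (c t) (h2 t))
    · set δ : ℝ := min 1 ((r - 1) / 2) with hδ
      have hδ0 : 0 < δ := lt_min one_pos (by linarith)
      filter_upwards [upper_exp δ hδ0 (min_le_left _ _)] with t ht
      have h4 := ht (c t) (h3 t)
      have h5 : δ ≤ (r - 1) / 2 := min_le_right _ _
      linarith

end Pool.Agent.R247.TW
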