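import Mathlib

/-!
# Limits of supermultiplicative functions
-/

namespace Pool.Agent.R247.TW

open Filter Topology Real

/-- A monotone supermultiplicative function of polynomial growth has an exponent. -/
theorem fek (M : ℕ → ℝ) (h1 : ∀ a, 1 ≤ a → 1 ≤ M a) (hmono : ∀ a b, 1 ≤ a → a ≤ b → M a ≤ M b)
    (hmul : ∀ a b, 1 ≤ a → 1 ≤ b → M a * M b ≤ M (a * b)) (B K : ℝ) (hB : 0 < B)
    (hpol : ∀ a : ℕ, 1 ≤ a → M a ≤ B * (a : ℝ) ^ K) :
    ∃ S : ℝ, Tendsto (fun a : ℕ => log (M a) / log a) atTop (𝓝 S) ∧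
      ∀ b : ℕ, 2 ≤ b → log (M b) / log b ≤ S := by
  have hpow : ∀ b : ℕ, 1 ≤ b → ∀ m : ℕ, M b ^ m ≤ M (b ^ m) := by
    intro b hb m
    induction m with
    | zero => simpa using h1 1 le_rfl
    | succ m ih =>
      rw [pow_succ, pow_succ]
      have h2 : M b ^ m * M b ≤ M (b ^ m) * M b :=
        mul_le_mul_of_nonneg_right ih (by linarith [h1 b hb])
      exact h2.trans (hmul _ _ (Nat.one_le_pow _ _ hb) hb)
  have hlogpos : ∀ b : ℕ, 2 ≤ b → 0 < log (b : ℝ) := fun b hb =>
    log_pos (by exact_mod_cast (by omega : 1 < b))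
  -- upper bound for the quotients
  have hub : ∀ b : ℕ, 2 ≤ b → log (M b) / log b ≤ |log B| / log 2 + K := by
    intro b hb
    have hb0 : (0 : ℝ) < b := by exact_mod_cast (by omega : 0 < b)
    have hM := h1 b (by omega)
    have h2 : log (M b) ≤ log B + K * log b := by
      have h3 := log_le_log (by linarith) (hpol b (by omega))
      rwa [log_mul hB.ne' (by positivity), log_rpow hb0] at h3
    rw [div_le_iff₀ (hlogpos b hb), add_mul]
    have h4 : log 2 ≤ log (b : ℝ) := log_le_log (by norm_num) (by exact_mod_cast hb)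
    have h5 : 0 < log (2 : ℝ) := log_pos (by norm_num)
    have h6 : |log B| ≤ |log B| / log 2 * log b := by
      rw [div_mul_eq_mul_div, le_div_iff₀ h5]
      exact mul_le_mul_of_nonneg_left h4 (abs_nonneg _)
    linarith [le_abs_self (log B)]
  set S : ℝ := sSup {x | ∃ b : ℕ, 2 ≤ b ∧ x = log (M b) / log b} with hS
  have hbdd : BddAbove {x | ∃ b : ℕ, 2 ≤ b ∧ x = log (M b) / log b} :=
    ⟨|log B| / log 2 + K, by rintro x ⟨b, hb, rfl⟩; exact hub b hb⟩
  have hne : {x | ∃ b : ℕ, 2 ≤ b ∧ x = log (M b) / log b}.Nonempty := ⟨_, 2, le_rfl, rfl⟩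
  have hle : ∀ b : ℕ, 2 ≤ b → log (M b) / log b ≤ S := fun b hb => le_csSup hbdd ⟨b, hb, rfl⟩
  refine ⟨S, ?_, hle⟩
  rw [tendsto_order]
  refine ⟨fun r hr => ?_, fun r hr => ?_⟩
  · obtain ⟨x, ⟨b, hb, rfl⟩, hx⟩ := exists_lt_of_lt_csSup hne hr
    have hlb := hlogpos b hb
    have hLb : 0 ≤ log (M b) := log_nonneg (h1 b (by omega))
    -- `m / (m+1) * (log M b / log b) → log M b / log b`
    have ht : Tendsto (fun m : ℕ => (m : ℝ) / (m + 1) * (log (M b) / log b)) atTop
        (𝓝 (1 * (log (M b) / log b))) :=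
      (tendsto_natCast_div_add_atTop (1 : ℝ)).mul_const _
    rw [one_mul] at ht
    have hev := (tendsto_order.1 ht).1 r hx
    have hlogb : Tendsto (fun a : ℕ => Nat.log b a) atTop atTop := by
      refine tendsto_atTop_mono' atTop ?_ (tendsto_id.comp (?_ : Tendsto (fun a : ℕ => Nat.log b a) atTop atTop))
      · exact Eventually.of_forall fun a => le_rfl
      · rw [tendsto_atTop_atTop]
        intro N
        refine ⟨b ^ N, fun a ha => ?_⟩
        exact (Nat.le_log_iff_pow_le (by omega) (by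
          have : 0 < b ^ N := by positivity
          omega)).2 ha
    have hev2 := hlogb.eventually hev
    filter_upwards [hev2, eventually_ge_atTop b] with a ha hab
    refine ha.trans_le ?_
    set m := Nat.log b a with hm
    have hapos : 0 < a := by omega
    have h2 : b ^ m ≤ a := Nat.pow_log_le_self b (by omega)
    have h3 : a < b ^ (m + 1) := Nat.lt_pow_succ_log_self (by omega) a
    have h4 : M b ^ m ≤ M a := (hpow b (by omega) m).trans (hmono _ _ (Nat.one_le_pow _ _ (by omega)) h2)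
    have h5 : (m : ℝ) * log (M b) ≤ log (M a) := by
      have := log_le_log (by have := h1 b (by omega); positivity) h4
      rwa [log_pow] at this
    have ha1 : (1 : ℝ) < a := by exact_mod_cast (by omega : 1 < a)
    have hla : 0 < log (a : ℝ) := log_pos ha1
    have h6 : log (a : ℝ) ≤ (m + 1) * log b := by
      have h7 : (a : ℝ) ≤ (b : ℝ) ^ (m + 1) := by exact_mod_cast h3.le
      have := log_le_log (by linarith) h7
      rw [log_pow] at this
      push_cast at this
      exact this
    rw [div_mul_div_comm, div_le_div_iff₀ (by positivity) hla]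
    have h8 : (m : ℝ) * log (M b) * log a ≤ (m : ℝ) * log (M b) * ((m + 1) * log b) :=
      mul_le_mul_of_nonneg_left h6 (by positivity)
    have h9 : (m : ℝ) * log (M b) * ((m + 1) * log b) ≤ log (M a) * ((m + 1) * log b) :=
      mul_le_mul_of_nonneg_right h5 (by positivity)
    linarith
  · filter_upwards [eventually_ge_atTop 2] with a ha
    exact (hle a ha).trans_lt hr

/-- comparison of the exponent with polynomial bounds. -/
theorem exp_le {M : ℕ → ℝ} {S B K : ℝ} (h1 : ∀ a, 1 ≤ a → 1 ≤ M a) (hB : 0 < B)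
    (hS : Tendsto (fun a : ℕ => log (M a) / log a) atTop (𝓝 S))
    (hpol : ∀ a : ℕ, 1 ≤ a → M a ≤ B * (a : ℝ) ^ K) : S ≤ K := by
  have hlog : Tendsto (fun a : ℕ => log (a : ℝ)) atTop atTop :=
    tendsto_log_atTop.comp tendsto_natCast_atTop_atTop
  have h2 : Tendsto (fun a : ℕ => log B / log (a : ℝ) + K) atTop (𝓝 (0 + K)) :=
    (tendsto_const_nhds.div_atTop hlog).add_const K
  rw [zero_add] at h2
  refine le_of_tendsto_of_tendsto hS h2 ?_
  filter_upwards [eventually_ge_atTop 2] with a ha
  have ha1 : (1 : ℝ) < a := by exact_mod_cast (by omega : 1 < a)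
  have hla : 0 < log (a : ℝ) := log_pos ha1
  have hM := h1 a (by omega)
  have h3 := log_le_log (by linarith) (hpol a (by omega))
  rw [log_mul hB.ne' (by positivity), log_rpow (by linarith)] at h3
  rw [div_le_iff₀ hla, add_mul, div_mul_cancel₀ _ hla.ne']
  exact h3

end Pool.Agent.R247.TW
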