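import Pool.Agent.Y422.TW.Final

/-!
# Twin-width of lexicographic products (general case)
-/

namespace Pool.Agent.R247.TW

open Finset Real Pool.Agent.Y422.TW

open Classical

attribute [-instance] instDecidableEqProd

variable {V W : Type*}

/-- the set `A × W`. -/
def full [Fintype W] (A : Finset V) : Finset (V × W) := A ×ˢ (Finset.univ : Finset W)

theorem mem_full [Fintype W] {A : Finset V} {x : V × W} : x ∈ full A ↔ x.1 ∈ A := by
  rw [full, mem_product]
  simp

theorem full_inj [Fintype W] [Nonempty W] {A B : Finset V}
    (h : (full A : Finset (V × W)) = full B) : A = B := by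
  obtain ⟨w⟩ := (inferInstance : Nonempty W)
  ext v
  have : ((v, w) : V × W) ∈ (full A : Finset (V × W)) ↔ (v, w) ∈ (full B : Finset (V × W)) := by
    rw [h]
  rwa [mem_full, mem_full] at this

theorem full_union [Fintype W] (A B : Finset V) :
    (full (A ∪ B) : Finset (V × W)) = full A ∪ full B := by
  ext x
  rw [mem_union, mem_full, mem_full, mem_full, mem_union]

theorem full_homog [Fintype W] (G : SimpleGraph V) (H : SimpleGraph W) {A B : Finset V}
    (hd : Disjoint A B) (h : Homog G A B) : Homog (lex G H) (full A) (full B) := by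
  rcases h with h | h
  · left
    intro x hx y hy
    exact Or.inl (h _ (mem_full.1 hx) _ (mem_full.1 hy))
  · right
    intro x hx y hy
    rintro (g | ⟨g, -⟩)
    · exact h _ (mem_full.1 hx) _ (mem_full.1 hy) g
    · have h1 := mem_full.1 hx
      have h2 := mem_full.1 hy
      rw [g] at h1
      exact (disjoint_left.1 hd) h1 h2

/-- parts are pairwise disjoint. -/
def Dis (P : Finset (Finset V)) : Prop := ∀ A ∈ P, ∀ B ∈ P, A ≠ B → Disjoint A B

theorem full_reach [Fintype V] [Fintype W] [Nonempty W] (G : SimpleGraph V) (H : SimpleGraph W)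
    (t : ℕ) (P Q : Finset (Finset V)) (hP : Dis P)
    (h : Relation.ReflTransGen (Contract G t) P Q) :
    Relation.ReflTransGen (Contract (lex G H) t) (P.image full) (Q.image full) ∧ Dis Q := by
  induction h with
  | refl => exact ⟨Relation.ReflTransGen.refl, hP⟩
  | @tail Q1 Q2 _ hstep ih =>
    obtain ⟨ih1, ih2⟩ := ih
    obtain ⟨⟨A, hA, B, hB, hAB, rfl⟩, hgood⟩ := hstep
    have hdis : Dis (insert (A ∪ B) ((Q1.erase A).erase B)) := by
      intro X hX Y hY hXY
      have key : ∀ Z ∈ (Q1.erase A).erase B, Disjoint (A ∪ B) Z := by
        intro Z hZ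
        obtain ⟨z1, z2⟩ := mem_erase.1 hZ
        obtain ⟨z3, z4⟩ := mem_erase.1 z2
        rw [disjoint_union_left]
        exact ⟨ih2 A hA Z z4 (Ne.symm z3), ih2 B hB Z z4 (Ne.symm z1)⟩
      rcases mem_insert.1 hX with rfl | hX
      · rcases mem_insert.1 hY with rfl | hY
        · exact absurd rfl hXY
        · exact key Y hY
      · rcases mem_insert.1 hY with rfl | hY
        · exact (key X hX).symm
        · exact ih2 X (mem_of_mem_erase (mem_of_mem_erase hX)) Y
            (mem_of_mem_erase (mem_of_mem_erase hY)) hXY
    refine ⟨ih1.tail ⟨⟨full A, mem_image_of_mem _ hA, full B, mem_image_of_mem _ hB,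
      fun e => hAB (full_inj e), ?_⟩, ?_⟩, hdis⟩
    · ext X
      rw [mem_insert, mem_erase, mem_erase, mem_image, mem_image]
      constructor
      · rintro ⟨Y, hY, rfl⟩
        rcases mem_insert.1 hY with rfl | hY
        · exact Or.inl (full_union _ _)
        · obtain ⟨z1, z2⟩ := mem_erase.1 hY
          obtain ⟨z3, z4⟩ := mem_erase.1 z2
          exact Or.inr ⟨fun e => z1 (full_inj e), fun e => z3 (full_inj e), Y, z4, rfl⟩
      · rintro (rfl | ⟨h1, h2, Y, hY, rfl⟩)
        · exact ⟨A ∪ B, mem_insert_self _ _, full_union _ _⟩
        · refine ⟨Y, mem_insert_of_mem (mem_erase.2 ⟨?_, mem_erase.2 ⟨?_, hY⟩⟩), rfl⟩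
          · rintro rfl
            exact h1 rfl
          · rintro rfl
            exact h2 rfl
    · intro X hX
      obtain ⟨C, hC, rfl⟩ := mem_image.1 hX
      refine le_trans ?_ (hgood C hC)
      have hsub : (((insert (A ∪ B) ((Q1.erase A).erase B)).image full).filter
          (fun B => B ≠ full C ∧ ¬ Homog (lex G H) (full C) B)) ⊆
          ((insert (A ∪ B) ((Q1.erase A).erase B)).filter
            (fun B => B ≠ C ∧ ¬ Homog G C B)).image (full : Finset V → Finset (V × W)) := by
        intro Y hY
        obtain ⟨h1, h2, h3⟩ := mem_filter.1 hY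
        obtain ⟨D, hD, rfl⟩ := mem_image.1 h1
        have hDC : D ≠ C := by
          rintro rfl
          exact h2 rfl
        refine mem_image.2 ⟨D, mem_filter.2 ⟨hD, hDC, fun hh => h3 ?_⟩, rfl⟩
        exact full_homog G H (hdis C hC D hD hDC.symm) hh
      exact (card_le_card hsub).trans card_image_le

theorem lex_tww [Fintype V] [Fintype W] (G : SimpleGraph V) (H : SimpleGraph W) (t : ℕ)
    [Nonempty V] [Nonempty W] (hG : TwinWidthLE G t) (hH : TwinWidthLE H t) :
    TwinWidthLE (lex G H) t := by
  set sing : Finset (Finset W) := Finset.univ.image (fun w => {w}) with hsing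
  have hsgood : Good H t sing := by
    intro A hA
    have : (filter (fun B => B ≠ A ∧ ¬ Homog H A B) sing) = ∅ := by
      rw [filter_eq_empty_iff]
      rintro B hB ⟨-, hh⟩
      obtain ⟨a, -, rfl⟩ := mem_image.1 hA
      obtain ⟨b, -, rfl⟩ := mem_image.1 hB
      apply hh
      by_cases hab : H.Adj a b
      · left
        intro x hx y hy
        rw [mem_singleton.1 hx, mem_singleton.1 hy]
        exact hab
      · right
        intro x hx y hy
        rw [mem_singleton.1 hx, mem_singleton.1 hy]
        exact hab
    rw [this]
    simp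
  have hsne : ∀ A ∈ sing, A.Nonempty := by
    intro A hA
    obtain ⟨a, -, rfl⟩ := mem_image.1 hA
    exact singleton_nonempty a
  have hsu := st_reach G H t (fun _ => sing) (fun _ => hsne) (fun _ => hsgood)
    (Classical.arbitrary V) {Finset.univ} hH
  have hall : ∀ S : Finset V, Relation.ReflTransGen (Contract (lex G H) t)
      (st (fun _ : V => sing)) (st (fun v => if v ∈ S then {Finset.univ} else sing)) := by
    intro S
    induction S using Finset.induction_on with
    | empty =>
      have : (fun v : V => if v ∈ (∅ : Finset V) then {Finset.univ} else sing) = fun _ => sing := by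
        funext v
        simp
      rw [this]
    | @insert a S ha ih =>
      refine ih.trans ?_
      have h1 := (st_reach G H t (fun v => if v ∈ S then {Finset.univ} else sing) ?_ ?_ a
        {Finset.univ} ?_).1
      · have h2 : Function.update (fun v => if v ∈ S then {Finset.univ} else sing) a {Finset.univ}
            = fun v => if v ∈ insert a S then {Finset.univ} else sing := by
          funext v
          by_cases hv : v = a
          · subst hv
            rw [Function.update_self, if_pos (mem_insert_self _ _)]
          · rw [Function.update_of_ne hv]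
            simp [hv]
        rw [h2] at h1
        exact h1
      · intro v
        show ∀ A ∈ (if v ∈ S then {Finset.univ} else sing), A.Nonempty
        split_ifs
        · exact hsu.2.2
        · exact hsne
      · intro v
        show Good H t (if v ∈ S then {Finset.univ} else sing)
        split_ifs
        · exact hsu.2.1
        · exact hsgood
      · show Relation.ReflTransGen (Contract H t) (if a ∈ S then {Finset.univ} else sing) {Finset.univ}
        rw [if_neg ha]
        exact hH
  have h3 := hall Finset.univ
  have e1 : st (fun _ : V => sing) = Finset.univ.image (fun x : V × W => {x}) := by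
    ext X
    rw [mem_st, mem_image]
    constructor
    · rintro ⟨v, A, hA, rfl⟩
      obtain ⟨w, -, rfl⟩ := mem_image.1 hA
      refine ⟨(v, w), mem_univ _, ?_⟩
      ext x
      rw [mem_slab, mem_singleton, mem_singleton, Prod.ext_iff]
    · rintro ⟨x, -, rfl⟩
      refine ⟨x.1, {x.2}, mem_image.2 ⟨x.2, mem_univ _, rfl⟩, ?_⟩
      ext y
      rw [mem_slab, mem_singleton, mem_singleton, Prod.ext_iff]
  rw [e1] at h3
  refine Relation.ReflTransGen.trans h3 ?_
  have e2 : (st (fun v : V => if v ∈ (Finset.univ : Finset V) then {Finset.univ} else sing)) =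
      (Finset.univ.image (fun v : V => ({v} : Finset V))).image
        (full : Finset V → Finset (V × W)) := by
    ext X
    rw [mem_st, mem_image]
    constructor
    · rintro ⟨v, A, hA, rfl⟩
      rw [if_pos (mem_univ v)] at hA
      rw [mem_singleton.1 hA]
      refine ⟨{v}, mem_image.2 ⟨v, mem_univ _, rfl⟩, ?_⟩
      ext x
      rw [mem_full, mem_slab, mem_singleton]
      simp
    · rintro ⟨A, hA, rfl⟩
      obtain ⟨v, -, rfl⟩ := mem_image.1 hA
      refine ⟨v, Finset.univ, ?_, ?_⟩
      · rw [if_pos (mem_univ v)]
        exact mem_singleton_self _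
      · ext x
        rw [mem_full, mem_slab, mem_singleton]
        simp
  rw [e2]
  have h4 := (full_reach G H t (Finset.univ.image (fun v : V => ({v} : Finset V))) {Finset.univ} ?_
    hG).1
  · have e3 : ({Finset.univ} : Finset (Finset V)).image (full : Finset V → Finset (V × W)) =
        {Finset.univ} := by
      rw [image_singleton]
      congr 1
    rw [e3] at h4
    exact h4
  · intro A hA B hB hAB
    obtain ⟨a, -, rfl⟩ := mem_image.1 hA
    obtain ⟨b, -, rfl⟩ := mem_image.1 hB
    rw [disjoint_singleton]
    rintro rfl
    exact hAB rfl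

end Pool.Agent.R247.TW
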