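import Pool.Agent.R247.TW.Up
import Pool.Agent.R247.TW.Fek

/-!
# The largest order of a Ramsey colouring of twin-width at most `t`
-/

namespace Pool.Agent.R247.TW

open Finset Real Pool.Agent.Y422.TW Filter Topology

open Classical

/-- There is a graph with `n` vertices, of twin-width at most `t`, all of whose cliques and
independent sets have at most `a` vertices. -/
def Ok (t a n : ℕ) : Prop :=
  ∃ (V : Type) (_ : Fintype V) (G : SimpleGraph V), Fintype.card V = n ∧ TwinWidthLE G t ∧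
    G.CliqueFree (a + 1) ∧ Gᶜ.CliqueFree (a + 1)

/-- The largest number of vertices of a graph of twin-width at most `t` all of whose cliques and
independent sets have at most `a` vertices. -/
noncomputable def maxOrd (t a : ℕ) : ℕ := sSup {n | Ok t a n}

theorem ok_bound (t : ℕ) : ∃ B K : ℝ, 0 < B ∧ 0 < K ∧ ∀ a n : ℕ, Ok t a n → (n : ℝ) ≤ B * (a : ℝ) ^ K := by
  obtain ⟨c, hc, hcond⟩ := cond_all t
  refine ⟨2 * ((t : ℝ) + 1) / (1 / 4), 2 * c, by positivity, by positivity, ?_⟩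
  rintro a n ⟨V, _, G, rfl, hG, h1, h2⟩
  have h := up' hc (by norm_num) (by norm_num) hcond G hG h1 h2
  refine h.trans (le_of_eq ?_)
  congr 1
  rw [← sq, ← rpow_natCast, ← rpow_mul (by positivity)]
  norm_num

theorem ok_bdd (t a : ℕ) : BddAbove {n | Ok t a n} := by
  obtain ⟨B, K, -, -, h⟩ := ok_bound t
  refine ⟨⌈B * (a : ℝ) ^ K⌉₊, fun n hn => ?_⟩
  have h1 := (h a n hn).trans (Nat.le_ceil _)
  exact_mod_cast h1

theorem le_maxOrd {t a n : ℕ} (h : Ok t a n) : n ≤ maxOrd t a := le_csSup (ok_bdd t a) h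

theorem ok_one (t a : ℕ) (ha : 1 ≤ a) : Ok t a 1 := by
  refine ⟨Unit, inferInstance, ⊥, by simp, small_twinWidth _ _ (by simp), ?_, ?_⟩
  · exact SimpleGraph.cliqueFree_of_card_lt (by simp; omega)
  · exact SimpleGraph.cliqueFree_of_card_lt (by simp; omega)

theorem ok_max (t a : ℕ) (ha : 1 ≤ a) : Ok t a (maxOrd t a) :=
  Nat.sSup_mem ⟨1, ok_one t a ha⟩ (ok_bdd t a)

theorem one_le_maxOrd (t a : ℕ) (ha : 1 ≤ a) : 1 ≤ maxOrd t a := le_maxOrd (ok_one t a ha)

theorem Ok.mono {t a b n : ℕ} (h : Ok t a n) (hab : a ≤ b) : Ok t b n := by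
  obtain ⟨V, i, G, h1, h2, h3, h4⟩ := h
  exact ⟨V, i, G, h1, h2, h3.mono (by omega), h4.mono (by omega)⟩

theorem maxOrd_mono (t a b : ℕ) (ha : 1 ≤ a) (hab : a ≤ b) : maxOrd t a ≤ maxOrd t b :=
  le_maxOrd ((ok_max t a ha).mono hab)

theorem maxOrd_mul (t a b : ℕ) (ha : 1 ≤ a) (hb : 1 ≤ b) :
    maxOrd t a * maxOrd t b ≤ maxOrd t (a * b) := by
  obtain ⟨V, iV, G, h1, h2, h3, h4⟩ := ok_max t a ha
  obtain ⟨W, iW, H, g1, g2, g3, g4⟩ := ok_max t b hb
  have hV : Nonempty V := by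
    rw [← Fintype.card_pos_iff, h1]
    exact one_le_maxOrd t a ha
  have hW : Nonempty W := by
    rw [← Fintype.card_pos_iff, g1]
    exact one_le_maxOrd t b hb
  refine le_maxOrd ⟨V × W, inferInstance, lex G H, ?_, lex_tww G H t h2 g2, ?_, ?_⟩
  · rw [Fintype.card_prod, h1, g1]
  · exact lex_cliqueFree G H h3 g3
  · rw [lex_compl]
    exact lex_cliqueFree Gᶜ Hᶜ h4 g4

theorem maxOrd_le {t a : ℕ} {X : ℝ} (ha : 1 ≤ a) (h : ∀ n : ℕ, Ok t a n → (n : ℝ) ≤ X) :
    (maxOrd t a : ℝ) ≤ X := h _ (ok_max t a ha)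

theorem limit_exists (t : ℕ) : ∃ S : ℝ,
    Tendsto (fun a : ℕ => log (maxOrd t a) / log a) atTop (𝓝 S) ∧
      (∀ b : ℕ, 2 ≤ b → log (maxOrd t b) / log b ≤ S) ∧
      ∀ B K : ℝ, 0 < B → (∀ a n : ℕ, 1 ≤ a → Ok t a n → (n : ℝ) ≤ B * (a : ℝ) ^ K) → S ≤ K := by
  obtain ⟨B, K, hB, hK, h⟩ := ok_bound t
  have hone : ∀ a, 1 ≤ a → (1 : ℝ) ≤ (maxOrd t a : ℝ) := fun a ha => by
    exact_mod_cast one_le_maxOrd t a ha
  obtain ⟨S, h1, h2⟩ := fek (fun a => (maxOrd t a : ℝ)) hone
    (fun a b ha hab => by exact_mod_cast maxOrd_mono t a b ha hab)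
    (fun a b ha hb => by exact_mod_cast maxOrd_mul t a b ha hb) B K hB
    (fun a ha => maxOrd_le ha (fun n hn => h a n hn))
  refine ⟨S, h1, h2, fun B' K' hB' h' => ?_⟩
  exact exp_le (M := fun a => (maxOrd t a : ℝ)) hone hB' h1
    (fun a ha => maxOrd_le ha (fun n hn => h' a n ha hn))

/-- the condition of the upper bound, for large `x = log t`. -/
theorem cond_large (δ : ℝ) (hδ : 0 < δ) (hδ1 : δ ≤ 1) : ∀ᶠ x : ℝ in atTop, ∀ t : ℕ, log t = x →
    ∀ p q : ℝ, 0 < p → p ≤ 1 → 0 < q → q ≤ 1 →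
      ((1 / x ^ 2) / (2 * ((t : ℝ) + 1))) ^ (1 / ((1 + δ) * x / (2 * log x))) ≤ p * q →
        (1 - p) ^ ((1 + δ) * x / (2 * log x)) + (1 - q) ^ ((1 + δ) * x / (2 * log x)) ≤
          1 - 1 / x ^ 2 := by
  set θ : ℝ := (δ / 2) / (1 + δ) with hθ
  have hθ0 : 0 < θ := by rw [hθ]; positivity
  have hθ1 : θ < 1 / 2 := by
    rw [hθ, div_lt_iff₀ (by linarith)]
    linarith
  -- the asymptotic facts
  have e1 : ∀ᶠ x : ℝ in atTop, log 4 + 2 * log x ≤ δ / 2 * x := by
    have h1 : Tendsto (fun x : ℝ => log x / x) atTop (𝓝 0) := by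
      have := Real.isLittleO_log_id_atTop.tendsto_div_nhds_zero
      simpa using this
    have h2 : Tendsto (fun x : ℝ => log 4 / x + 2 * (log x / x)) atTop (𝓝 (0 + 2 * 0)) :=
      (tendsto_const_nhds.div_atTop tendsto_id).add (h1.const_mul 2)
    have h3 := (tendsto_order.1 h2).2 (δ / 2) (by simp; positivity)
    filter_upwards [h3, eventually_gt_atTop 0] with x hx hx0
    have h4 : (log 4 / x + 2 * (log x / x)) * x = log 4 + 2 * log x := by
      field_simp
    have h5 := mul_le_mul_of_nonneg_right hx.le hx0.le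
    linarith
  have e2 : ∀ᶠ x : ℝ in atTop, 8 * (log x) ^ 2 ≤ x ^ θ := by
    have h1 := (isLittleO_log_rpow_rpow_atTop (s := θ) (2 : ℝ) hθ0)
    have h2 := h1.bound (show (0 : ℝ) < 1 / 8 by norm_num)
    filter_upwards [h2, eventually_ge_atTop 1] with x hx hx1
    have h3 : 0 ≤ log x := log_nonneg hx1
    rw [norm_of_nonneg (by positivity), norm_of_nonneg (by positivity),
      show (2 : ℝ) = ((2 : ℕ) : ℝ) by norm_num, rpow_natCast] at hx
    linarith
  filter_upwards [e1, e2, eventually_ge_atTop (exp 2)] with x h1 h2 hx t ht p q hp hp1 hq hq1 hpq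
  have he2 : (4 : ℝ) < exp 2 := by
    have := add_one_lt_exp (show (1 : ℝ) ≠ 0 by norm_num)
    have h3 : exp 2 = exp 1 * exp 1 := by rw [← exp_add]; norm_num
    nlinarith [exp_one_gt_d9]
  have hx4 : 4 < x := by linarith
  have hx0 : 0 < x := by linarith
  have hlx : 2 ≤ log x := by
    rw [le_log_iff_exp_le hx0]
    exact hx
  set c : ℝ := (1 + δ) * x / (2 * log x) with hc
  have hcpos : 0 < c := by rw [hc]; positivity
  have htpos : (0 : ℝ) < t := by
    rcases Nat.eq_zero_or_pos t with h | h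
    · rw [h, Nat.cast_zero, log_zero] at ht
      linarith
    · exact_mod_cast h
  have ht1 : (1 : ℝ) ≤ t := by exact_mod_cast (by exact_mod_cast htpos : 0 < t)
  -- lower bound for the product
  have hτ : x ^ (-(2 * (1 - θ))) ≤ p * q := by
    refine le_trans ?_ hpq
    have h3 : (1 / x ^ 2) / (2 * ((t : ℝ) + 1)) = exp (-(2 * log x + log (2 * ((t : ℝ) + 1)))) := by
      rw [neg_add, exp_add, exp_neg, exp_neg, exp_log (by positivity),
        show 2 * log x = log (x ^ 2) by rw [log_pow]; norm_num, exp_log (by positivity)]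
      field_simp
    rw [h3, rpow_def_of_pos hx0, ← exp_mul]
    apply exp_le_exp.2
    have h4 : log (2 * ((t : ℝ) + 1)) ≤ log 4 + x := by
      rw [← ht, ← log_mul (by norm_num) htpos.ne']
      apply log_le_log (by positivity)
      linarith
    have h5 : 2 * log x + log (2 * ((t : ℝ) + 1)) ≤ (1 + δ / 2) * x := by linarith
    have h6 : (2 * log x + log (2 * ((t : ℝ) + 1))) * (1 / c) ≤ (1 + δ / 2) * x * (1 / c) :=
      mul_le_mul_of_nonneg_right h5 (by positivity)
    have h7 : (1 + δ / 2) * x * (1 / c) = log x * (2 * (1 - θ)) := by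
      rw [hc, hθ]
      have : log x ≠ 0 := by linarith
      field_simp
      ring
    have h8 : -(2 * log x + log (2 * ((t : ℝ) + 1))) * (1 / c) ≥ -(log x * (2 * (1 - θ))) := by
      rw [neg_mul]
      linarith
    linarith
  have hxθ : 8 * (log x) ^ 2 ≤ x ^ θ := h2
  have key : ∀ r s : ℝ, 0 < r → r ≤ 1 → 0 < s → s ≤ 1 → s ≤ r →
      x ^ (-(2 * (1 - θ))) ≤ r * s → (1 - r) ^ c + (1 - s) ^ c ≤ 1 - 1 / x ^ 2 := by
    intro r s hr hr1 hs hs1 hsr hrs
    have hpow : ∀ z : ℝ, 0 < z → z ≤ 1 → (1 - z) ^ c ≤ exp (-(c * z)) := by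
      intro z hz hz1
      have h3 : 1 - z ≤ exp (-z) := by linarith [add_one_le_exp (-z)]
      calc (1 - z) ^ c ≤ (exp (-z)) ^ c := rpow_le_rpow (by linarith) h3 hcpos.le
        _ = exp (-(c * z)) := by rw [← exp_mul]; congr 1; ring
    -- `r ≥ x ^ (-(1-θ))`
    have hr2 : x ^ (-(1 - θ)) ≤ r := by
      by_contra hcon
      push Not at hcon
      have h3 : r * s ≤ r * r := mul_le_mul_of_nonneg_left hsr hr.le
      have h4 : r * r < x ^ (-(1 - θ)) * x ^ (-(1 - θ)) :=
        mul_lt_mul'' hcon hcon hr.le hr.le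
      rw [← rpow_add hx0] at h4
      have e : -(1 - θ) + -(1 - θ) = -(2 * (1 - θ)) := by ring
      rw [e] at h4
      linarith
    have hs2 : x ^ (-(2 * (1 - θ))) ≤ s := by
      calc x ^ (-(2 * (1 - θ))) ≤ r * s := hrs
        _ ≤ 1 * s := mul_le_mul_of_nonneg_right hr1 hs.le
        _ = s := one_mul s
    have hlx0 : 0 < log x := by linarith
    have hcr : 4 * log x ≤ c * r := by
      have h3 : c * x ^ (-(1 - θ)) ≤ c * r := mul_le_mul_of_nonneg_left hr2 hcpos.le
      have h4 : c * x ^ (-(1 - θ)) = (1 + δ) * x ^ θ / (2 * log x) := by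
        rw [hc, show x ^ (-(1 - θ)) = x ^ θ / x by
          rw [← rpow_sub_one hx0.ne']; congr 1; ring]
        field_simp
      have h5 : 4 * log x ≤ (1 + δ) * x ^ θ / (2 * log x) := by
        rw [le_div_iff₀ (by positivity)]
        have h6 : 0 < x ^ θ := by positivity
        nlinarith
      linarith
    have hcs : 1 / x ≤ c * s := by
      have h3 : c * x ^ (-(2 * (1 - θ))) ≤ c * s := mul_le_mul_of_nonneg_left hs2 hcpos.le
      have h4 : c * x ^ (-(2 * (1 - θ))) = (1 + δ) * (x ^ θ * x ^ θ) / (2 * log x) * (1 / x) := by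
        rw [hc, ← rpow_add hx0, show x ^ (-(2 * (1 - θ))) = x ^ (θ + θ) / x ^ (2 : ℕ) by
          rw [← rpow_natCast x 2, ← rpow_sub hx0]; congr 1; push_cast; ring]
        field_simp
      have h5 : 1 ≤ (1 + δ) * (x ^ θ * x ^ θ) / (2 * log x) := by
        rw [le_div_iff₀ (by positivity)]
        have h6 : 1 ≤ x ^ θ := by nlinarith
        have h7 : x ^ θ ≤ x ^ θ * x ^ θ := by nlinarith
        nlinarith
      have h6 : 1 * (1 / x) ≤ (1 + δ) * (x ^ θ * x ^ θ) / (2 * log x) * (1 / x) :=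
        mul_le_mul_of_nonneg_right h5 (by positivity)
      linarith
    have h3 : (1 - r) ^ c ≤ 1 / x ^ 4 := by
      calc (1 - r) ^ c ≤ exp (-(c * r)) := hpow r hr hr1
        _ ≤ exp (-(4 * log x)) := exp_le_exp.2 (by linarith)
        _ = 1 / x ^ 4 := by
            rw [exp_neg, show 4 * log x = log (x ^ 4) by rw [log_pow]; norm_num,
              exp_log (by positivity), one_div]
    have h4 : (1 - s) ^ c ≤ 1 - 1 / (2 * x) := by
      have h5 : exp (-(1 / x)) ≤ 1 / (1 + 1 / x) := by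
        rw [exp_neg, ← one_div]
        apply one_div_le_one_div_of_le (by positivity)
        linarith [add_one_le_exp (1 / x)]
      have h6 : 1 / (1 + 1 / x) ≤ 1 - 1 / (2 * x) := by
        rw [div_le_iff₀ (by positivity)]
        have h7 : (1 - 1 / (2 * x)) * (1 + 1 / x) = 1 + 1 / (2 * x) - 1 / (2 * x ^ 2) := by
          field_simp
          ring
        rw [h7]
        have h8 : 1 / (2 * x ^ 2) ≤ 1 / (2 * x) := by
          apply one_div_le_one_div_of_le (by positivity)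
          nlinarith
        linarith
      calc (1 - s) ^ c ≤ exp (-(c * s)) := hpow s hs hs1
        _ ≤ exp (-(1 / x)) := exp_le_exp.2 (by linarith)
        _ ≤ _ := h5.trans h6
    have h5 : 1 / x ^ 4 + 1 / x ^ 2 ≤ 1 / (2 * x) := by
      have h6 : 1 / x ^ 4 ≤ 1 / x ^ 2 := by
        apply one_div_le_one_div_of_le (by positivity)
        exact pow_le_pow_right₀ (by linarith) (by norm_num)
      have h7 : 1 / x ^ 2 + 1 / x ^ 2 = 4 / x * (1 / (2 * x)) := by
        field_simp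
        norm_num
      have h8 : 4 / x ≤ 1 := by
        rw [div_le_one hx0]
        linarith
      have h9 : 4 / x * (1 / (2 * x)) ≤ 1 * (1 / (2 * x)) :=
        mul_le_mul_of_nonneg_right h8 (by positivity)
      linarith
    linarith
  rcases le_total q p with h3 | h3
  · exact key p q hp hp1 hq hq1 h3 hτ
  · have := key q p hq hq1 hp hp1 h3 (by rw [mul_comm q p]; exact hτ)
    linarith

end Pool.Agent.R247.TW
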