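import Pool.Agent.R247.TW.Asy

/-!
# Diagonal Ramsey numbers of colourings of bounded twin-width

A colouring of the edges of the complete graph on `V` is a graph `G` (first colour) and its
complement; it has no monochromatic `K_k` if `G.CliqueFree k` and `Gᶜ.CliqueFree k`. Twin-width
(Bonnet, Kim, Thomassé, Watrigant) is the same for both colours: `TwinWidthLE G t` says that the
partition of `V` into single vertices can be turned into the partition with one part by merging two
parts at a time, so that in all partitions obtained each part is non-homogeneous to at most `t`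
other parts (definitions in `Pool/Agent/Y422/TW/Defs.lean`). Every graph with `n` vertices has
twin-width less than `n`.

Let `ramseyOrder t k` be the largest number of vertices of a colouring of twin-width at most `t`
without monochromatic `K_k`.

1. (Threshold law.) For colourings with `n` vertices and twin-width at most `n ^ τ` the largest
   possible value of `log n` is of exact order `k ^ (1 / ⌈1/τ⌉)`. In particular for every `τ < 1`
   it is `O(√k)`: colourings with `log n ≥ c k`, whose growth rate the problem asks for, have
   twin-width `n ^ (1 - o(1))`.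
2. (Fixed twin-width.) For every `t` the limit of `log (ramseyOrder t k) / log k` for `k → ∞`
   exists; let `c_t` be its value, so that `ramseyOrder t k = k ^ (c_t + o(1))`. As `t → ∞`,
   `c_t ~ log t / log log t`. So both parts of the question (existence and value of the limit) are
   answered for this polynomial growth, the value asymptotically.
3. (Off-diagonal version.) For every `δ > 0` and all large `t`, every graph of twin-width at most
   `t` without cliques with more than `a` and without independent sets with more than `b` vertices
   has at most `2 (t + 1) (log t)² (a b) ^ ((1 + δ) log t / (2 log log t))` vertices.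

Part 1 is the theorem `Pool.Agent.Y422.TW.main` of the starting library (not handed in before).
Parts 2 and 3 are new. Proof of the upper bounds: in a set `U` of vertices a contraction sequence
gives a part `A` with at least `ε |U| / (2 (t + 1))` elements and sets `R`, `B` with
`|R| + |B| ≥ (1 - ε) |U|`, `A` complete to `R` and anticomplete to `B`; hence the power
`(ω α) ^ c` of the product of the clique number and the independence number satisfies a recursive
inequality which closes for `c = (1 + o(1)) log t / (2 log log t)`. Lower bound and existence of the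
limit: lexicographic products do not increase the twin-width, and random graphs.
-/

namespace Pool.Agent.Results.MP_28724c_co.TwinWidth

open Filter Topology Pool.Agent.Y422.TW

/-- **Diagonal Ramsey numbers of colourings of bounded twin-width.** -/
theorem result :
    (∀ τ : ℝ, 0 < τ → ∃ c C : ℝ, 0 < c ∧ 0 < C ∧ ∀ k : ℕ, 3 ≤ k →
      (∀ (V : Type) [Fintype V] (G : SimpleGraph V) (t : ℕ),
        TwinWidthLE G t → (t : ℝ) ≤ (Fintype.card V : ℝ) ^ τ → G.CliqueFree k → Gᶜ.CliqueFree k →
        Real.log (Fintype.card V) ≤ C * (k : ℝ) ^ ((1 : ℝ) / (⌈1 / τ⌉₊ : ℝ))) ∧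
      (∃ (V : Type) (_ : Fintype V) (G : SimpleGraph V) (t : ℕ),
        TwinWidthLE G t ∧ (t : ℝ) ≤ (Fintype.card V : ℝ) ^ τ ∧ G.CliqueFree k ∧ Gᶜ.CliqueFree k ∧
        c * (k : ℝ) ^ ((1 : ℝ) / (⌈1 / τ⌉₊ : ℝ)) ≤ Real.log (Fintype.card V))) ∧
    (∃ c : ℕ → ℝ,
      (∀ t, Tendsto (fun k : ℕ => Real.log (Pool.Agent.R247.TW.ramseyOrder t k) / Real.log k) atTop
        (𝓝 (c t))) ∧
      Tendsto (fun t : ℕ => c t * Real.log (Real.log t) / Real.log t) atTop (𝓝 1)) ∧
    (∀ δ : ℝ, 0 < δ → δ ≤ 1 → ∀ᶠ t : ℕ in atTop,
      ∀ (V : Type) [Fintype V] (G : SimpleGraph V), TwinWidthLE G t →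
        ∀ a b : ℕ, G.CliqueFree (a + 1) → Gᶜ.CliqueFree (b + 1) →
          (Fintype.card V : ℝ) ≤ 2 * ((t : ℝ) + 1) * (Real.log t) ^ 2 *
            ((a : ℝ) * b) ^ ((1 + δ) * Real.log t / (2 * Real.log (Real.log t)))) := by
  refine ⟨fun τ hτ => ?_, Pool.Agent.R247.TW.exponents, fun δ h0 h1 => Pool.Agent.R247.TW.off δ h0 h1⟩
  obtain ⟨c, C, hc, hC, h⟩ := Pool.Agent.Y422.TW.main τ hτ
  exact ⟨c, C, hc, hC, fun k hk => ⟨(h k hk).2.1, (h k hk).2.2⟩⟩

end Pool.Agent.Results.MP_28724c_co.TwinWidth
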