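import Pool.Agent.R247.TW.Lex

/-!
# Upper bounds for graphs of fixed twin-width
-/

namespace Pool.Agent.R247.TW

open Finset Real Pool.Agent.Y422.TW

open Classical

attribute [-instance] instDecidableEqProd

variable {V : Type*}

theorem up [Fintype V] {c ε : ℝ} {t : ℕ} (hc : 0 < c) (hε0 : 0 < ε) (hε1 : ε < 1)
    (hcond : ∀ p q : ℝ, 0 < p → p ≤ 1 → 0 < q → q ≤ 1 →
      (ε / (2 * ((t : ℝ) + 1))) ^ (1 / c) ≤ p * q → (1 - p) ^ c + (1 - q) ^ c ≤ 1 - ε)
    (G : SimpleGraph V) (hG : TwinWidthLE G t) (U : Finset V) (hU : U.Nonempty) :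
    (U.card : ℝ) ≤ 2 * ((t : ℝ) + 1) / ε * ((w G U : ℝ) * w Gᶜ U) ^ c := by
  have ht0 : (0 : ℝ) ≤ t := Nat.cast_nonneg t
  set M : ℝ := 2 * ((t : ℝ) + 1) / ε with hM
  have hMpos : 0 < M := by rw [hM]; positivity
  have hMinv : ε / (2 * ((t : ℝ) + 1)) = 1 / M := by rw [hM, one_div_div]
  revert hU
  induction U using Finset.strongInduction with
  | H U ih =>
    intro hU
    have hx1 : (1 : ℝ) ≤ w G U := by exact_mod_cast w_pos G hU
    have hy1 : (1 : ℝ) ≤ w Gᶜ U := by exact_mod_cast w_pos Gᶜ hU
    set x : ℝ := (w G U : ℝ) with hx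
    set y : ℝ := (w Gᶜ U : ℝ) with hy
    have hxy1 : 1 ≤ x * y := by nlinarith
    by_cases hsm : (U.card : ℝ) ≤ M
    · have h1 : (1 : ℝ) ≤ (x * y) ^ c := one_le_rpow hxy1 hc.le
      nlinarith
    · push Not at hsm
      by_contra hcon
      push Not at hcon
      have hn : 0 < (U.card : ℝ) := hMpos.trans hsm
      set s : ℝ := U.card / M with hs
      have hs1 : 1 ≤ s := by
        rw [hs, le_div_iff₀ hMpos]
        linarith
      have hsD : 2 * s * ((t : ℝ) + 1) = ε * U.card := by
        rw [hs, hM]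
        field_simp
      have hsU : s ≤ U.card := by
        rw [hs]
        apply div_le_self hn.le
        rw [hM, le_div_iff₀ hε0]
        nlinarith
      obtain ⟨A, R, B, hA, hR, hB, hsA, hAR, hAB, hcard⟩ := pair_lemma G t hG s hs1 U hsU
      rw [hsD] at hcard
      have hAne : A.Nonempty := by
        rw [← card_pos]
        have : (0 : ℝ) < A.card := by linarith
        exact_mod_cast this
      obtain ⟨a0, ha0⟩ := hAne
      have hRss : R ⊂ U := by
        refine hR.ssubset_of_ne ?_
        rintro rfl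
        exact G.loopless.irrefl a0 (hAR a0 ha0 a0 (hA ha0))
      have hBss : B ⊂ U := by
        refine hB.ssubset_of_ne ?_
        rintro rfl
        exact Gᶜ.loopless.irrefl a0 (hAB a0 ha0 a0 (hA ha0))
      have hAss : A ⊂ U := by
        refine hA.ssubset_of_ne ?_
        rintro rfl
        have hRe : R = ∅ := by
          rw [eq_empty_iff_forall_notMem]
          intro r hr
          exact G.loopless.irrefl r (hAR r (hR hr) r hr)
        have hBe : B = ∅ := by
          rw [eq_empty_iff_forall_notMem]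
          intro r hr
          exact Gᶜ.loopless.irrefl r (hAB r (hB hr) r hr)
        rw [hRe, hBe, card_empty, Nat.cast_zero] at hcard
        nlinarith
      have hxA1 : (1 : ℝ) ≤ w G A := by exact_mod_cast w_pos G ⟨a0, ha0⟩
      have hyA1 : (1 : ℝ) ≤ w Gᶜ A := by exact_mod_cast w_pos Gᶜ ⟨a0, ha0⟩
      have hxAx : (w G A : ℝ) ≤ x := by rw [hx]; exact_mod_cast w_mono G hA
      have hyAy : (w Gᶜ A : ℝ) ≤ y := by rw [hy]; exact_mod_cast w_mono Gᶜ hA
      set xA : ℝ := (w G A : ℝ) with hxA
      set yA : ℝ := (w Gᶜ A : ℝ) with hyA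
      have ihA := ih A hAss ⟨a0, ha0⟩
      rw [← hxA, ← hyA] at ihA
      have hx0 : 0 < x := by linarith
      have hy0 : 0 < y := by linarith
      have hxyc : 0 < (x * y) ^ c := by positivity
      -- the product of the proportions
      have h1 : 1 / M * (x * y) ^ c ≤ (xA * yA) ^ c := by
        have h2 : s ≤ M * (xA * yA) ^ c := hsA.trans ihA
        have h3 : (x * y) ^ c ≤ s := by
          rw [hs, le_div_iff₀ hMpos]
          linarith
        rw [one_div, inv_mul_le_iff₀ hMpos]
        exact h3.trans h2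
      have h4 : (1 / M) ^ (1 / c) ≤ xA / x * (yA / y) := by
        have h5 : 1 / M ≤ (xA / x * (yA / y)) ^ c := by
          have e : xA / x * (yA / y) = (xA * yA) / (x * y) := by field_simp
          rw [e, div_rpow (by positivity) (by positivity), le_div_iff₀ hxyc]
          exact h1
        have h6 := rpow_le_rpow (by positivity) h5 (show 0 ≤ 1 / c by positivity)
        rw [← rpow_mul (by positivity), mul_one_div, div_self hc.ne', rpow_one] at h6
        exact h6
      have h7 := hcond (xA / x) (yA / y) (by positivity) (by rw [div_le_one hx0]; exact hxAx)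
        (by positivity) (by rw [div_le_one hy0]; exact hyAy) (by rw [hMinv]; exact h4)
      -- bounds for R and B
      have hRle : (R.card : ℝ) ≤ M * ((x - xA) * y) ^ c := by
        rcases R.eq_empty_or_nonempty with hRe | hRne
        · rw [hRe, card_empty, Nat.cast_zero]
          have : 0 ≤ (x - xA) * y := mul_nonneg (by linarith) hy0.le
          positivity
        · have i1 := ih R hRss hRne
          refine i1.trans (mul_le_mul_of_nonneg_left ?_ hMpos.le)
          apply rpow_le_rpow (by positivity) _ hc.le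
          have e1 : xA + w G R ≤ x := by
            rw [hx, hxA]
            exact_mod_cast w_add G hA hR hAR
          have e2 : (w Gᶜ R : ℝ) ≤ y := by rw [hy]; exact_mod_cast w_mono Gᶜ hR
          exact mul_le_mul (by linarith) e2 (by positivity) (by linarith)
      have hBle : (B.card : ℝ) ≤ M * (x * (y - yA)) ^ c := by
        rcases B.eq_empty_or_nonempty with hBe | hBne
        · rw [hBe, card_empty, Nat.cast_zero]
          have : 0 ≤ x * (y - yA) := mul_nonneg hx0.le (by linarith)
          positivity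
        · have i1 := ih B hBss hBne
          refine i1.trans (mul_le_mul_of_nonneg_left ?_ hMpos.le)
          apply rpow_le_rpow (by positivity) _ hc.le
          have e1 : yA + w Gᶜ B ≤ y := by
            rw [hy, hyA]
            exact_mod_cast w_add Gᶜ hA hB hAB
          have e2 : (w G B : ℝ) ≤ x := by rw [hx]; exact_mod_cast w_mono G hB
          exact mul_le_mul e2 (by linarith) (by positivity) (by linarith)
      have e3 : (x - xA) * y = (x * y) * (1 - xA / x) := by field_simp
      have e4 : x * (y - yA) = (x * y) * (1 - yA / y) := by field_simp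
      have hp1 : 0 ≤ 1 - xA / x := by
        have : xA / x ≤ 1 := by rw [div_le_one hx0]; exact hxAx
        linarith
      have hq1 : 0 ≤ 1 - yA / y := by
        have : yA / y ≤ 1 := by rw [div_le_one hy0]; exact hyAy
        linarith
      rw [e3, mul_rpow (by positivity) hp1] at hRle
      rw [e4, mul_rpow (by positivity) hq1] at hBle
      have h8 : M * ((x * y) ^ c * (1 - xA / x) ^ c) + M * ((x * y) ^ c * (1 - yA / y) ^ c) ≤
          M * (x * y) ^ c * (1 - ε) := by
        have := mul_le_mul_of_nonneg_left h7 (show 0 ≤ M * (x * y) ^ c by positivity)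
        linarith
      have h9 : (1 - ε) * (M * (x * y) ^ c) < (1 - ε) * U.card :=
        mul_lt_mul_of_pos_left hcon (by linarith)
      nlinarith

/-- the bound in terms of the forbidden sizes. -/
theorem up' {V : Type} [Fintype V] {c ε : ℝ} {t : ℕ} (hc : 0 < c) (hε0 : 0 < ε) (hε1 : ε < 1)
    (hcond : ∀ p q : ℝ, 0 < p → p ≤ 1 → 0 < q → q ≤ 1 →
      (ε / (2 * ((t : ℝ) + 1))) ^ (1 / c) ≤ p * q → (1 - p) ^ c + (1 - q) ^ c ≤ 1 - ε)
    (G : SimpleGraph V) (hG : TwinWidthLE G t) {a b : ℕ} (ha : G.CliqueFree (a + 1))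
    (hb : Gᶜ.CliqueFree (b + 1)) :
    (Fintype.card V : ℝ) ≤ 2 * ((t : ℝ) + 1) / ε * ((a : ℝ) * b) ^ c := by
  have ht0 : (0 : ℝ) ≤ t := Nat.cast_nonneg t
  rcases isEmpty_or_nonempty V with hV | hV
  · rw [Fintype.card_eq_zero, Nat.cast_zero]
    positivity
  · have h := up hc hε0 hε1 hcond G hG Finset.univ Finset.univ_nonempty
    rw [card_univ] at h
    refine h.trans (mul_le_mul_of_nonneg_left ?_ (by positivity))
    apply rpow_le_rpow (by positivity) _ hc.le
    have h1 : (w G Finset.univ : ℝ) ≤ a := by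
      have := w_lt G ha Finset.univ
      exact_mod_cast (by omega : w G Finset.univ ≤ a)
    have h2 : (w Gᶜ Finset.univ : ℝ) ≤ b := by
      have := w_lt Gᶜ hb Finset.univ
      exact_mod_cast (by omega : w Gᶜ Finset.univ ≤ b)
    exact mul_le_mul h1 h2 (by positivity) (by positivity)

/-- the condition holds for every `t`, with some exponent. -/
theorem cond_all (t : ℕ) : ∃ c : ℝ, 0 < c ∧ ∀ p q : ℝ, 0 < p → p ≤ 1 → 0 < q → q ≤ 1 →
      ((1 / 4 : ℝ) / (2 * ((t : ℝ) + 1))) ^ (1 / c) ≤ p * q →
        (1 - p) ^ c + (1 - q) ^ c ≤ 1 - 1 / 4 := by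
  have ht0 : (0 : ℝ) ≤ t := Nat.cast_nonneg t
  have hlog : 0 < log 2 := log_pos (by norm_num)
  set c : ℝ := log (8 * ((t : ℝ) + 1)) / log 2 with hc
  have h8 : log 8 = 3 * log 2 := by
    rw [show (8 : ℝ) = 2 ^ 3 by norm_num, log_pow]
    norm_num
  have hc3 : 3 ≤ c := by
    rw [hc, le_div_iff₀ hlog, ← h8]
    apply log_le_log (by norm_num)
    linarith
  refine ⟨c, by linarith, ?_⟩
  intro p q hp hp1 hq hq1 hpq
  have e : ((1 / 4 : ℝ) / (2 * ((t : ℝ) + 1))) ^ (1 / c) = 1 / 2 := by
    have e1 : (1 / 4 : ℝ) / (2 * ((t : ℝ) + 1)) = (1 / 2) ^ c := by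
      have e2 : (2 : ℝ) ^ c = 8 * ((t : ℝ) + 1) := by
        rw [rpow_def_of_pos (by norm_num), hc, mul_div_cancel₀ _ hlog.ne', exp_log (by positivity)]
      rw [one_div (2 : ℝ), inv_rpow (by norm_num), e2]
      field_simp
      norm_num
    rw [e1, ← rpow_mul (by norm_num), mul_one_div, div_self (by linarith), rpow_one]
  rw [e] at hpq
  have hp2 : 1 / 2 ≤ p := by nlinarith
  have hq2 : 1 / 2 ≤ q := by nlinarith
  have key : ∀ r : ℝ, 1 / 2 ≤ r → r ≤ 1 → (1 - r) ^ c ≤ 1 / 8 := by
    intro r hr hr1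
    calc (1 - r) ^ c ≤ (1 / 2 : ℝ) ^ c := rpow_le_rpow (by linarith) (by linarith) (by linarith)
      _ ≤ (1 / 2 : ℝ) ^ (3 : ℝ) := by
          apply rpow_le_rpow_of_exponent_ge (by norm_num) (by norm_num) hc3
      _ = 1 / 8 := by
          rw [show (3 : ℝ) = ((3 : ℕ) : ℝ) by norm_num, rpow_natCast]
          norm_num
  have := key p hp2 hp1
  have := key q hq2 hq1
  linarith

end Pool.Agent.R247.TW
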